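import Pool.Agent.H5.SupNorm

set_option autoImplicit false

namespace Pool.Agent.Results.MP_a21db2_an.DentLimit

open scoped Topology
open Filter Metric Set Pool.Agent.H5 Pool.Agent.H5.Asq Pool.Agent.H5.SupNorm

section defs

variable {X : Type} [NormedAddCommGroup X] [NormedSpace ℝ X]

/-- the slice of the unit ball given by `f` and `α` -/
def slice (f : StrongDual ℝ X) (α : ℝ) : Set X := {y | ‖y‖ ≤ 1 ∧ ‖f‖ - α < f y}

/-- the denting points of the unit ball -/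
def dent (X : Type) [NormedAddCommGroup X] [NormedSpace ℝ X] : Set X :=
  {x | ‖x‖ ≤ 1 ∧ ∀ ε : ℝ, 0 < ε → ∃ (f : StrongDual ℝ X) (α : ℝ), f ≠ 0 ∧ 0 < α ∧
    x ∈ slice f α ∧ diam (slice f α) < ε}

/-- the supremum of the distances from `x` to the points of `A` is two -/
def Far (x : X) (A : Set X) : Prop := sSup ((fun y => ‖x - y‖) '' A) = 2

/-- Delta-points -/
def Delta (x : X) : Prop :=
  ∀ (f : StrongDual ℝ X) (α : ℝ), f ≠ 0 → 0 < α → x ∈ slice f α → Far x (slice f α)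

/-- super Delta-points -/
def SuperDelta (x : X) : Prop :=
  ∀ U : Set (WeakSpace ℝ X), IsOpen U → toWeakSpace ℝ X x ∈ U →
    Far x (closedBall (0 : X) 1 ∩ toWeakSpace ℝ X ⁻¹' U)

lemma SuperDelta.delta {x : X} (h : SuperDelta x) : Delta x := fun f α _ _ hx => by
  have h1 := h {y | ‖f‖ - α < f ((toWeakSpace ℝ X).symm y)} (isOpen_lt continuous_const
    (WeakBilin.eval_continuous (topDualPairing ℝ X).flip f)) hx.2
  have h2 : slice f α = closedBall (0 : X) 1 ∩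
      toWeakSpace ℝ X ⁻¹' {y | ‖f‖ - α < f ((toWeakSpace ℝ X).symm y)} :=
    Set.ext fun y => and_congr mem_closedBall_zero_iff.symm Iff.rfl
  rwa [h2]

end defs

abbrev W : Type := (ℝ × ℝ) × c0

abbrev D : Type := {p : ℝ × ℝ // p.1 ^ 2 + p.2 ^ 2 ≤ 1}

instance : Nonempty D := ⟨⟨0, by simp⟩⟩

noncomputable def ψ (i j : ℕ) (a b : ℝ) (v : W) : ℝ :=
  (1 + a) / 2 * (v.1.2 + v.2 i) - (1 - a) / 2 * (v.1.2 + v.2 j) + b * v.1.1

lemma ψ_le {i j : ℕ} {a b A B : ℝ} {v : W} (h : a ^ 2 + b ^ 2 ≤ 1)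
    (hA : ∀ k, |v.1.2 + v.2 k| ≤ A) (hB : |v.1.1| ≤ B) : |ψ i j a b v| ≤ A + B := by
  have ha : |a| ≤ 1 := sq_le_one_iff_abs_le_one _ |>.1 (by nlinarith)
  have hb : |b| ≤ 1 := sq_le_one_iff_abs_le_one _ |>.1 (by nlinarith)
  have h1 : |b * v.1.1| ≤ B := by
    rw [abs_mul]
    exact (mul_le_of_le_one_left (abs_nonneg _) hb).trans hB
  have h2 := abs_le.1 (hA i)
  have h3 := abs_le.1 (hA j)
  have h4 := abs_le.1 ha
  have h5 := abs_le.1 h1
  unfold ψ
  exact abs_le.2 ⟨by nlinarith [h2.1, h3.2, h4.1, h4.2], by nlinarith [h2.2, h3.1, h4.1, h4.2]⟩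

lemma space : ∃ (X : Type) (_ : NormedAddCommGroup X) (_ : NormedSpace ℝ X)
    (_ : CompleteSpace X) (e : W ≃L[ℝ] X), ∀ v C, ‖e v‖ ≤ C ↔
      ∀ i j a b, a ^ 2 + b ^ 2 ≤ 1 → |ψ i j a b v| ≤ C := by
  obtain ⟨X, i1, i2, i3, e, he⟩ := supnorm W
    (fun p : ℕ × ℕ × D => ψ p.1 p.2.1 p.2.2.1.1 p.2.2.1.2) (a := 1 / 2) (b := 3)
    (fun p x y => by simp [ψ]; ring) (fun p c x => by simp [ψ]; ring) (by norm_num)
    (fun p x => by
      have h1 : |x.1.1| ≤ ‖x‖ := (norm_fst_le x.1).trans (norm_fst_le x)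
      have h2 : |x.1.2| ≤ ‖x‖ := (norm_snd_le x.1).trans (norm_fst_le x)
      refine (ψ_le p.2.2.2 (A := 2 * ‖x‖) (fun k => ?_) h1).trans (by linarith)
      linarith [abs_add_le x.1.2 (x.2 k), abs_le_norm x.2 k, norm_snd_le x])
    fun x C h => by
      have h1 : |x.1.1| ≤ C := by
        refine le_of_eq_of_le ?_ (h (0, 0, ⟨(0, 1), by simp⟩))
        simp [ψ]
      have h2 : ∀ k, |x.1.2 + x.2 k| ≤ C := fun k => by
        refine le_of_eq_of_le ?_ (h (k, 0, ⟨(1, 0), by simp⟩))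
        simp [ψ]
      have h3 : |x.1.2| ≤ C := le_of_tendsto' (by simpa using ((lim x.2).const_add x.1.2).abs) h2
      have h0 : 0 ≤ C := (abs_nonneg _).trans h1
      have h4 : ‖x‖ ≤ 2 * C := max_le
        (max_le (h1.trans (by linarith)) (h3.trans (by linarith)))
        (norm_le_of _ (by linarith) fun k => by
          have := abs_sub (x.1.2 + x.2 k) x.1.2
          rw [add_sub_cancel_left] at this
          linarith [h2 k])
      linarith
  exact ⟨X, i1, i2, i3, e, fun v C => (he v C).trans ⟨fun h i j a b hab => h (i, j, ⟨(a, b), hab⟩),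
    fun h p => h _ _ _ _ p.2.2.2⟩⟩

/-- A super Delta-point in the closure of the denting points. -/
theorem result : ∃ (X : Type) (_ : NormedAddCommGroup X) (_ : NormedSpace ℝ X)
    (_ : CompleteSpace X) (x : X), ‖x‖ = 1 ∧ SuperDelta x ∧ Delta x ∧ x ∈ closure (dent X) := by
  obtain ⟨X, i1, i2, i3, e, he⟩ := space
  have h0 : ∀ a b : ℝ, a ^ 2 + b ^ 2 = 1 → ‖e ((b, a), 0)‖ = 1 := fun a b h => by
    refine le_antisymm ((he _ _).2 fun i j c d hcd => ?_) ?_
    · have : ψ i j c d ((b, a), 0) = c * a + d * b := by simp [ψ]; ring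
      rw [this, abs_le]
      constructor <;> nlinarith [sq_nonneg (c - a), sq_nonneg (d - b), sq_nonneg (c + a),
        sq_nonneg (d + b)]
    · have := (he ((b, a), 0) _).1 le_rfl 0 0 a b h.le
      rw [show ψ 0 0 a b ((b, a), 0) = a ^ 2 + b ^ 2 by simp [ψ]; ring, h, abs_one] at this
      exact this
  have h1 := h0 1 0 (by norm_num)
  have hS : SuperDelta (e ((0, 1), 0)) := fun U hU hx => by
    have k1 : Tendsto (fun n => toWeakSpace ℝ X (e ((0, 1), (-2 : ℝ) • u n))) atTop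
        (𝓝 (toWeakSpace ℝ X (e ((0, 1), 0)))) := weak fun g => by
      have k2 := ((null (g ∘L (e : W →L[ℝ] X) ∘L ContinuousLinearMap.inr ℝ (ℝ × ℝ) c0)).const_mul
        (-2)).const_add (g (e ((0, 1), 0)))
      rw [mul_zero, add_zero] at k2
      refine k2.congr fun n => ?_
      change _ + -2 * g (e (0, u n)) = _
      rw [← smul_eq_mul, ← map_smul, ← map_smul, ← map_add, ← map_add]
      congr 2
      simp
    obtain ⟨n, hn⟩ := (k1.eventually (hU.mem_nhds hx)).exists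
    have k2 : ‖e ((0, 1), (-2 : ℝ) • u n)‖ ≤ 1 := (he _ _).2 fun i j a b h =>
      (ψ_le h (A := 1) (B := 0) (fun k => by
        change |1 + -2 * (if k = n then 1 else 0 : ℝ)| ≤ 1
        split_ifs <;> norm_num) (by simp)).trans_eq (add_zero _)
    refine IsGreatest.csSup_eq ⟨⟨_, ⟨mem_closedBall_zero_iff.2 k2, hn⟩, le_antisymm ?_ ?_⟩, ?_⟩
    · linarith [norm_sub_le (e ((0, 1), 0)) (e ((0, 1), (-2 : ℝ) • u n))]
    · have k3 := (he (((0, 1), 0) - ((0, 1), (-2 : ℝ) • u n)) _).1 le_rfl n n 1 0 (by simp)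
      have k4 : u n n = 1 := if_pos rfl
      rw [map_sub] at k3
      simpa [ψ, k4] using k3
    · rintro _ ⟨z, hz, rfl⟩
      linarith [norm_sub_le (e ((0, 1), 0)) z, mem_closedBall_zero_iff.1 hz.1]
  have hD : ∀ a b : ℝ, a ^ 2 + b ^ 2 = 1 → 0 ≤ a → a < 1 → e ((b, a), 0) ∈ dent X := by
    intro a b h a0 a1
    refine ⟨(h0 a b h).le, fun ε hε => ?_⟩
    let f : StrongDual ℝ X := LinearMap.mkContinuous
      { toFun := fun x => ψ 0 0 a b (e.symm x)
        map_add' := fun x y => by simp [ψ]; ring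
        map_smul' := fun c x => by simp [ψ]; ring } 1 fun x => by
          obtain ⟨v, rfl⟩ := e.surjective x
          rw [one_mul]
          simpa using (he v _).1 le_rfl 0 0 a b h.le
    have hf : ∀ v, f (e v) = a * (v.1.2 + v.2 0) + b * v.1.1 := fun v => by
      change ψ 0 0 a b (e.symm (e v)) = _
      rw [e.symm_apply_apply, ψ]
      ring
    have k1 : f (e ((b, a), 0)) = 1 := by
      rw [hf, ← h]
      simp [sq]
    have k2 : ‖f‖ = 1 := le_antisymm (LinearMap.mkContinuous_norm_le _ zero_le_one _)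
      (by simpa [k1] using f.unit_le_opNorm _ (h0 a b h).le)
    obtain ⟨r, r0, r1, r2⟩ : ∃ r : ℝ, 0 < r ∧ r ≤ 1 - a ∧ r ≤ ε / 7 :=
      ⟨min (1 - a) (ε / 7), lt_min (by linarith) (by linarith), min_le_left _ _, min_le_right _ _⟩
    refine ⟨f, r ^ 2 / 2, norm_pos_iff.1 (by linarith), by positivity,
      ⟨(h0 a b h).le, by rw [k1, k2]; nlinarith⟩, lt_of_le_of_lt
        (diam_le_of_subset_closedBall (x := e ((b, a), 0)) (r := 3 * r) (by linarith) ?_)
        (by linarith)⟩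
    rintro y ⟨hy, hy'⟩
    obtain ⟨v, rfl⟩ := e.surjective y
    rw [k2, hf] at hy'
    rw [he] at hy
    set s := v.1.2 + v.2 0
    have k3 : s ^ 2 + v.1.1 ^ 2 ≤ 1 := by
      have hp : 0 < 1 + (s ^ 2 + v.1.1 ^ 2) := by positivity
      have k4 := (abs_le.1 (hy 0 0 (2 * s / (1 + (s ^ 2 + v.1.1 ^ 2)))
        (2 * v.1.1 / (1 + (s ^ 2 + v.1.1 ^ 2))) (by
          rw [div_pow, div_pow, ← add_div, div_le_one (by positivity)]
          nlinarith [sq_nonneg (1 - (s ^ 2 + v.1.1 ^ 2))]))).2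
      rw [show ψ 0 0 _ _ v = 2 * (s ^ 2 + v.1.1 ^ 2) / (1 + (s ^ 2 + v.1.1 ^ 2)) by
        unfold ψ; ring, div_le_one hp] at k4
      linarith
    have k4 : |s - a| ≤ r := abs_le_of_sq_le_sq (by nlinarith [sq_nonneg (v.1.1 - b)]) r0.le
    have k5 : |v.1.1 - b| ≤ r := abs_le_of_sq_le_sq (by nlinarith [sq_nonneg (s - a)]) r0.le
    have k6 : ∀ k, |v.1.2 + v.2 k - s| ≤ r := fun k => by
      have k7 := (abs_le.1 (hy k 0 a b h.le)).2
      have k8 := (abs_le.1 (hy 0 k a b h.le)).2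
      unfold ψ at k7 k8
      refine abs_le.2 ⟨?_, ?_⟩
      · by_contra! k9
        nlinarith
      · by_contra! k9
        nlinarith
    rw [mem_closedBall, dist_eq_norm, ← map_sub, he]
    intro i j c d hcd
    refine (ψ_le hcd (A := 2 * r) (B := r) (fun k => ?_) k5).trans (by linarith)
    change |v.1.2 - a + (v.2 k - 0)| ≤ _
    have k7 := abs_le.1 (k6 k)
    have k8 := abs_le.1 k4
    exact abs_le.2 ⟨by linarith [k7.1, k8.1], by linarith [k7.2, k8.2]⟩
  refine ⟨X, i1, i2, i3, _, h1, hS, hS.delta, ?_⟩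
  have k1 : Continuous fun t : ℝ => e ((Real.sin t, Real.cos t), 0) := by fun_prop
  have k2 := (k1.tendsto 0).mono_left (nhdsWithin_le_nhds (s := Ioi 0))
  rw [Real.sin_zero, Real.cos_zero] at k2
  refine mem_closure_of_tendsto k2 ?_
  filter_upwards [Ioo_mem_nhdsGT one_pos] with t ht
  refine hD _ _ (Real.cos_sq_add_sin_sq t) (Real.cos_pos_of_le_one (abs_le.2
    ⟨by linarith [ht.1], ht.2.le⟩)).le ?_
  rw [← Real.cos_zero]
  exact Real.cos_lt_cos_of_nonneg_of_le_pi le_rfl (by linarith [ht.2, Real.pi_gt_three]) ht.1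

end Pool.Agent.Results.MP_a21db2_an.DentLimit
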